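import Pool.Agent.Helper17.QD.Glue
import Pool.Agent.Helper68.QCM.M_EQX

/-!
# Module NBC of the glue: change of the base by an element of `SU(1,1)`
-/

set_option autoImplicit false

open Filter Topology Set Metric MeasureTheory
open scoped ComplexConjugate ENNReal

namespace Pool.Agent.Helper34.QL

open Pool.Agent.Helper17.QD Pool.Agent.Helper35.PM
open Pool.Agent.Helper68.QC (nq Bel InvB Intw Sol WD mob den Tst)
open Pool.Agent.Helper68.QCM (det_eq_one hasDerivAt_mob mob_injOn isOpen_den sol_congr)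

private lemma sol_congr_fun {μ : ℂ → ℂ} {U : Set ℂ} {f g : ℂ → ℂ} (h : Sol μ U f)
    (he : ∀ z ∈ U, f z = g z) : Sol μ U g := by
  obtain ⟨a, b, hw, hb⟩ := h
  refine ⟨a, b, ⟨hw.cont.congr fun z hz => (he z hz).symm, hw.l2a, hw.l2b, fun φ hφ => ?_,
    fun φ hφ => ?_⟩, hb⟩
  · rw [← hw.dz φ hφ]
    refine integral_congr_ae (ae_of_all _ fun z => ?_)
    by_cases hz : z ∈ tsupport φ
    · simp only
      rw [he z (hφ.sub hz)]
    · simp only
      rw [Pool.Agent.Helper68.QC.dz_eq_zero hz, mul_zero, mul_zero]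
  · rw [← hw.dzb φ hφ]
    refine integral_congr_ae (ae_of_all _ fun z => ?_)
    by_cases hz : z ∈ tsupport φ
    · simp only
      rw [he z (hφ.sub hz)]
    · simp only
      rw [Pool.Agent.Helper68.QC.dzb_eq_zero hz, mul_zero, mul_zero]

private lemma mul_rule (A B : SL) (z : ℂ) (h : den B z ≠ 0) :
    mob (A * B) z = mob A (mob B z) ∧ den (A * B) z = den A (mob B z) * den B z := by
  have e : ∀ i j, (A * B) i j = A i 0 * B 0 j + A i 1 * B 1 j := by
    intro i j
    rw [Matrix.SpecialLinearGroup.coe_mul, Matrix.mul_apply, Fin.sum_univ_two]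
  have hd : den (A * B) z = den A (mob B z) * den B z := by
    unfold mob
    unfold den at h ⊢
    rw [e, e]
    field_simp
    ring
  refine ⟨?_, hd⟩
  rcases eq_or_ne (den A (mob B z)) 0 with h0 | h0
  · have h1 : den (A * B) z = 0 := by rw [hd, h0, zero_mul]
    unfold mob at h0 ⊢
    rw [h1, h0]
    simp
  · have h1 : den (A * B) z ≠ 0 := by rw [hd]; exact mul_ne_zero h0 h
    have h2 : mob (A * B) z = ((A * B) 0 0 * z + (A * B) 0 1) / den (A * B) z := rfl
    have h3 : mob A (mob B z) = (A 0 0 * mob B z + A 0 1) / den A (mob B z) := rfl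
    rw [h2, h3, hd, div_eq_div_iff (mul_ne_zero h0 h) h0, e, e]
    have h4 : mob B z * den B z = B 0 0 * z + B 0 1 := by
      unfold mob
      exact div_mul_cancel₀ _ h
    have h5 : den B z = B 1 0 * z + B 1 1 := rfl
    linear_combination (-(A 0 0) * den A (mob B z)) * h4 - (A 0 1 * den A (mob B z)) * h5

private lemma inv_entries (A : SL) : A⁻¹ 0 0 = A 1 1 ∧ A⁻¹ 0 1 = - A 0 1 ∧ A⁻¹ 1 0 = - A 1 0 ∧
    A⁻¹ 1 1 = A 0 0 := by
  rw [Matrix.SpecialLinearGroup.SL2_inv_expl]
  exact ⟨rfl, rfl, rfl, rfl⟩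

private lemma inv_rule (A : SL) (z : ℂ) (h : den A z ≠ 0) :
    den A⁻¹ (mob A z) ≠ 0 ∧ mob A⁻¹ (mob A z) = z := by
  have h1 := mul_rule A⁻¹ A z h
  rw [inv_mul_cancel] at h1
  have e1 : den (1 : SL) z = 1 := by simp [den]
  have e2 : mob (1 : SL) z = z := by simp [mob, den]
  rw [e1, e2] at h1
  refine ⟨?_, h1.1.symm⟩
  intro h0
  rw [h0, zero_mul] at h1
  exact one_ne_zero h1.2

private lemma den_finite (A : SL) : {z | den A z = 0}.Finite := by
  refine Set.Subsingleton.finite ?_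
  intro z hz z' hz'
  have h1 : A 1 0 * z + A 1 1 = 0 := hz
  have h2 : A 1 0 * z' + A 1 1 = 0 := hz'
  have hd := det_eq_one A
  have h3 : A 1 0 ≠ 0 := by
    intro h0
    rw [h0, zero_mul, zero_add] at h1
    rw [h0, h1, mul_zero, mul_zero, sub_zero] at hd
    exact zero_ne_one hd
  have h4 : A 1 0 * (z - z') = 0 := by linear_combination h1 - h2
  rcases mul_eq_zero.1 h4 with h | h
  · exact absurd h h3
  · exact sub_eq_zero.1 h

/-- the map seen from infinity -/
private noncomputable def inf (G : ℂ ≃ₜ ℂ) (h : G 0 = 0) : ℂ ≃ₜ ℂ where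
  toFun u := (G u⁻¹)⁻¹
  invFun v := (G.symm v⁻¹)⁻¹
  left_inv u := by simp
  right_inv v := by simp
  continuous_toFun := by
    have key : ∀ F : ℂ ≃ₜ ℂ, F 0 = 0 → Continuous fun u => (F u⁻¹)⁻¹ := by
      intro F hF
      rw [continuous_iff_continuousAt]
      intro u
      rcases eq_or_ne u 0 with rfl | hu
      · rw [continuousAt_iff_punctured_nhds]
        have e0 : (F (0 : ℂ)⁻¹)⁻¹ = 0 := by rw [inv_zero, hF, inv_zero]
        rw [e0]
        have t1 : Tendsto (fun u : ℂ => u⁻¹) (𝓝[≠] 0) (Bornology.cobounded ℂ) :=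
          Filter.tendsto_inv₀_nhdsNE_zero
        have t2 : Tendsto F (Bornology.cobounded ℂ) (Bornology.cobounded ℂ) := by
          rw [Metric.cobounded_eq_cocompact]
          exact F.isClosedEmbedding.tendsto_cocompact
        exact tendsto_inv₀_cobounded.comp (t2.comp t1)
      · have h1 : F u⁻¹ ≠ 0 := by
          intro h0
          rw [← hF] at h0
          exact inv_ne_zero hu (F.injective h0)
        exact (F.continuous.continuousAt.comp (continuousAt_inv₀ hu)).inv₀ h1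
    exact key G h
  continuous_invFun := by
    have hs : G.symm 0 = 0 := by
      rw [Homeomorph.symm_apply_eq]
      exact h.symm
    have key : ∀ F : ℂ ≃ₜ ℂ, F 0 = 0 → Continuous fun u => (F u⁻¹)⁻¹ := by
      intro F hF
      rw [continuous_iff_continuousAt]
      intro u
      rcases eq_or_ne u 0 with rfl | hu
      · rw [continuousAt_iff_punctured_nhds]
        have e0 : (F (0 : ℂ)⁻¹)⁻¹ = 0 := by rw [inv_zero, hF, inv_zero]
        rw [e0]
        have t1 : Tendsto (fun u : ℂ => u⁻¹) (𝓝[≠] 0) (Bornology.cobounded ℂ) :=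
          Filter.tendsto_inv₀_nhdsNE_zero
        have t2 : Tendsto F (Bornology.cobounded ℂ) (Bornology.cobounded ℂ) := by
          rw [Metric.cobounded_eq_cocompact]
          exact F.isClosedEmbedding.tendsto_cocompact
        exact tendsto_inv₀_cobounded.comp (t2.comp t1)
      · have h1 : F u⁻¹ ≠ 0 := by
          intro h0
          rw [← hF] at h0
          exact inv_ne_zero hu (F.injective h0)
        exact (F.continuous.continuousAt.comp (continuousAt_inv₀ hu)).inv₀ h1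
    exact key G.symm hs

private lemma inf_apply (G : ℂ ≃ₜ ℂ) (h : G 0 = 0) (u : ℂ) : inf G h u = (G u⁻¹)⁻¹ := rfl

/-- `w ∘ A`, corrected on the left to be a homeomorphism of the plane -/
private lemma exists_left (w : ℂ ≃ₜ ℂ) (A : SL) : ∃ (f : ℂ ≃ₜ ℂ) (M : SL), ∀ z, den A z ≠ 0 →
    f z = mob M (w (mob A z)) ∧ den M (w (mob A z)) ≠ 0 := by
  have hdet := det_eq_one A
  by_cases hr : A 1 0 = 0
  · have hs : A 1 1 ≠ 0 := by
      intro h
      rw [h, hr] at hdet
      simp at hdet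
    have hp : A 0 0 ≠ 0 := by
      intro h
      rw [h, hr] at hdet
      simp at hdet
    have hc : A 0 0 / A 1 1 ≠ 0 := div_ne_zero hp hs
    refine ⟨((Homeomorph.mulLeft₀ _ hc).trans (Homeomorph.addRight (A 0 1 / A 1 1))).trans w, 1,
      fun z _ => ⟨?_, ?_⟩⟩
    · have e2 : ∀ y, mob (1 : SL) y = y := fun y => by simp [mob, den]
      rw [e2]
      have e3 : mob A z = A 0 0 / A 1 1 * z + A 0 1 / A 1 1 := by
        have e4 : A 1 0 * z + A 1 1 = A 1 1 := by rw [hr]; ring
        unfold mob den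
        rw [e4]
        ring
      rw [e3]
      rfl
    · simp [den]
  · set q : ℂ := w (A 0 0 / A 1 0) with hq
    set G : ℂ ≃ₜ ℂ := ((Homeomorph.addRight (A 0 0 / A 1 0)).trans w).trans
      (Homeomorph.addRight (-q)) with hG
    have hG0 : G 0 = 0 := by
      have : G 0 = w (0 + A 0 0 / A 1 0) + -q := rfl
      rw [this, zero_add, ← hq, add_neg_cancel]
    have hGa : ∀ y, G y = w (y + A 0 0 / A 1 0) - q := by
      intro y
      have : G y = w (y + A 0 0 / A 1 0) + -q := rfl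
      rw [this, sub_eq_add_neg]
    have hr2 : - (A 1 0) ^ 2 ≠ 0 := neg_ne_zero.2 (pow_ne_zero 2 hr)
    have hI : Complex.I ^ 2 = -1 := Complex.I_sq
    let M : SL := ⟨!![0, Complex.I; Complex.I, -Complex.I * q], by
      rw [Matrix.det_fin_two_of]
      linear_combination -hI⟩
    have m00 : M 0 0 = 0 := rfl
    have m01 : M 0 1 = Complex.I := rfl
    have m10 : M 1 0 = Complex.I := rfl
    have m11 : M 1 1 = -Complex.I * q := rfl
    refine ⟨((Homeomorph.addRight (A 1 1 / A 1 0)).trans (Homeomorph.mulLeft₀ _ hr2)).trans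
      (inf G hG0), M, fun z hz => ?_⟩
    have hdz : den A z = A 1 0 * (z + A 1 1 / A 1 0) := by
      unfold den
      field_simp
    have hz1 : z + A 1 1 / A 1 0 ≠ 0 := by
      intro h0
      rw [hdz, h0, mul_zero] at hz
      exact hz rfl
    have hmob : mob A z = A 0 0 / A 1 0 - 1 / (A 1 0 ^ 2 * (z + A 1 1 / A 1 0)) := by
      have e0 : mob A z = (A 0 0 * z + A 0 1) / den A z := rfl
      have e1 : A 0 0 * z + A 0 1 = A 0 0 * (z + A 1 1 / A 1 0) - 1 / A 1 0 := by
        field_simp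
        linear_combination -hdet
      rw [e0, hdz, e1]
      generalize z + A 1 1 / A 1 0 = x at hz1
      field_simp
    have hdM : den M (w (mob A z)) = Complex.I * (w (mob A z) - q) := by
      unfold den
      rw [m10, m11]
      ring
    have hne : w (mob A z) - q ≠ 0 := by
      rw [sub_ne_zero, hq]
      intro h0
      have h1 := w.injective h0
      rw [hmob] at h1
      have h2 : 1 / (A 1 0 ^ 2 * (z + A 1 1 / A 1 0)) = 0 := by linear_combination -h1
      exact one_div_ne_zero (mul_ne_zero (pow_ne_zero 2 hr) hz1) h2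
    refine ⟨?_, ?_⟩
    · have e1 : (((Homeomorph.addRight (A 1 1 / A 1 0)).trans (Homeomorph.mulLeft₀ _ hr2)).trans
          (inf G hG0)) z = inf G hG0 (-(A 1 0) ^ 2 * (z + A 1 1 / A 1 0)) := rfl
      rw [e1, inf_apply, hGa]
      have e2 : (-(A 1 0) ^ 2 * (z + A 1 1 / A 1 0))⁻¹ + A 0 0 / A 1 0 = mob A z := by
        rw [hmob]
        field_simp
        ring
      rw [e2]
      have e3 : mob M (w (mob A z)) = (M 0 0 * w (mob A z) + M 0 1) / den M (w (mob A z)) := rfl
      rw [e3, hdM, m00, m01]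
      have hI0 := Complex.I_ne_zero
      field_simp
      ring
    · rw [hdM]
      exact mul_ne_zero Complex.I_ne_zero hne

/-- normalisation -/
private lemma exists_norm (f : ℂ ≃ₜ ℂ) : ∃ (g : ℂ ≃ₜ ℂ) (M : SL), g 0 = 0 ∧ g 1 = 1 ∧
    ∀ z, g z = mob M (f z) ∧ den M (f z) ≠ 0 := by
  have h10 : f 1 - f 0 ≠ 0 := by
    rw [sub_ne_zero]
    intro h
    exact one_ne_zero (f.injective h)
  obtain ⟨s, hs⟩ := IsAlgClosed.exists_pow_nat_eq (f 1 - f 0) (n := 2) (by norm_num)
  have hs0 : s ≠ 0 := by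
    rintro rfl
    apply h10
    rw [← hs]
    norm_num
  let M : SL := ⟨!![1 / s, - f 0 / s; 0, s], by
    rw [Matrix.det_fin_two_of]
    field_simp
    ring⟩
  have m00 : M 0 0 = 1 / s := rfl
  have m01 : M 0 1 = - f 0 / s := rfl
  have m10 : M 1 0 = 0 := rfl
  have m11 : M 1 1 = s := rfl
  have hdM : ∀ y, den M y = s := fun y => by
    unfold den
    rw [m10, m11]
    ring
  refine ⟨(f.trans (Homeomorph.addRight (- f 0))).trans (Homeomorph.mulLeft₀ _ (inv_ne_zero h10)),
    M, ?_, ?_, fun z => ⟨?_, ?_⟩⟩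
  · show (f 1 - f 0)⁻¹ * (f 0 + - f 0) = 0
    rw [add_neg_cancel, mul_zero]
  · show (f 1 - f 0)⁻¹ * (f 1 + - f 0) = 1
    rw [← sub_eq_add_neg, inv_mul_cancel₀ h10]
  · show (f 1 - f 0)⁻¹ * (f z + - f 0) = mob M (f z)
    have e3 : mob M (f z) = (M 0 0 * f z + M 0 1) / den M (f z) := rfl
    rw [e3, hdM, m00, m01, ← hs]
    field_simp
  · rw [hdM]
    exact hs0

private lemma eq_or_neg (B C : SL) (S : Set ℂ) (hS : S.Infinite)
    (h : ∀ y ∈ S, den B y ≠ 0 ∧ den C y ≠ 0 ∧ mob B y = mob C y) : C = B ∨ C = -B := by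
  set c2 : ℂ := B 0 0 * C 1 0 - C 0 0 * B 1 0 with hc2
  set c1 : ℂ := B 0 0 * C 1 1 + B 0 1 * C 1 0 - C 0 0 * B 1 1 - C 0 1 * B 1 0 with hc1
  set c0 : ℂ := B 0 1 * C 1 1 - C 0 1 * B 1 1 with hc0
  let P : Polynomial ℂ := Polynomial.C c2 * Polynomial.X ^ 2 + Polynomial.C c1 * Polynomial.X +
    Polynomial.C c0
  have hP : P = 0 := by
    refine Polynomial.eq_zero_of_infinite_isRoot P (hS.mono ?_)
    intro y hy
    obtain ⟨h1, h2, h3⟩ := h y hy
    have h4 : (B 0 0 * y + B 0 1) * (C 1 0 * y + C 1 1) =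
        (C 0 0 * y + C 0 1) * (B 1 0 * y + B 1 1) := by
      unfold mob at h3
      rw [div_eq_div_iff h1 h2] at h3
      exact h3
    show Polynomial.eval y P = 0
    simp only [P, Polynomial.eval_add, Polynomial.eval_mul, Polynomial.eval_C,
      Polynomial.eval_pow, Polynomial.eval_X]
    rw [hc2, hc1, hc0]
    linear_combination h4
  have k2 : c2 = 0 := by
    have := congrArg (fun Q => Polynomial.coeff Q 2) hP
    simpa [P, Polynomial.coeff_X, Polynomial.coeff_C] using this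
  have k1 : c1 = 0 := by
    have := congrArg (fun Q => Polynomial.coeff Q 1) hP
    simpa [P, Polynomial.coeff_X, Polynomial.coeff_C, Polynomial.coeff_X_pow] using this
  have k0 : c0 = 0 := by
    have := congrArg (fun Q => Polynomial.coeff Q 0) hP
    simpa [P, Polynomial.coeff_X, Polynomial.coeff_C, Polynomial.coeff_X_pow] using this
  have dB := det_eq_one B
  have dC := det_eq_one C
  set t : ℂ := B 1 1 * C 0 0 - B 0 1 * C 1 0 with ht
  have t2 : t * t = 1 := by
    rw [ht]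
    rw [hc2] at k2
    rw [hc1] at k1
    rw [hc0] at k0
    linear_combination (-(B 0 1 * C 1 1 - C 0 1 * B 1 1)) * k2 -
      (B 1 1 * C 0 0 - B 0 1 * C 1 0) * k1 + (B 0 0 * B 1 1 - B 0 1 * B 1 0) * dC + dB
  have a00 : C 0 0 = B 0 0 * t := by
    rw [ht]; rw [hc2] at k2
    linear_combination (B 0 1) * k2 - (C 0 0) * dB
  have a10 : C 1 0 = B 1 0 * t := by
    rw [ht]; rw [hc2] at k2
    linear_combination (B 1 1) * k2 - (C 1 0) * dB
  have a01 : C 0 1 = B 0 1 * t := by
    rw [ht]; rw [hc1] at k1; rw [hc0] at k0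
    linear_combination (B 0 1) * k1 - (B 0 0) * k0 - (C 0 1) * dB
  have a11 : C 1 1 = B 1 1 * t := by
    rw [ht]; rw [hc1] at k1; rw [hc0] at k0
    linear_combination (B 1 1) * k1 - (B 1 0) * k0 - (C 1 1) * dB
  have hpm : t = 1 ∨ t = -1 := by
    have : (t - 1) * (t + 1) = 0 := by linear_combination t2
    rcases mul_eq_zero.1 this with h | h
    · exact Or.inl (sub_eq_zero.1 h)
    · exact Or.inr (eq_neg_of_add_eq_zero_left h)
  rcases hpm with h | h
  · left
    ext i j
    fin_cases i <;> fin_cases j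
    · simpa [h] using a00
    · simpa [h] using a01
    · simpa [h] using a10
    · simpa [h] using a11
  · right
    ext i j
    fin_cases i <;> fin_cases j
    · simpa [h] using a00
    · simpa [h] using a01
    · simpa [h] using a10
    · simpa [h] using a11

/-- the inverse image of a null set is a null set -/
private lemma ae_mob (A : SL) {E : ℂ → Prop} (h : ∀ᵐ y : ℂ, E y) :
    ∀ᵐ z : ℂ, den A z ≠ 0 → E (mob A z) := by
  rw [ae_iff] at h ⊢
  have hd : DifferentiableOn ℝ (mob A⁻¹) ({y | ¬ E y} ∩ {y | den A⁻¹ y ≠ 0}) := fun y hy =>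
    ((hasDerivAt_mob A⁻¹ hy.2).differentiableAt.restrictScalars ℝ).differentiableWithinAt
  have h1 := MeasureTheory.addHaar_image_eq_zero_of_differentiableOn_of_addHaar_eq_zero
    volume hd (measure_mono_null inter_subset_left h)
  refine measure_mono_null ?_ h1
  intro z hz
  have hz' : ¬ (den A z ≠ 0 → E (mob A z)) := hz
  rw [Classical.not_imp] at hz'
  obtain ⟨h2, h3⟩ := inv_rule A z hz'.1
  exact ⟨mob A z, ⟨hz'.2, h2⟩, h3⟩

private lemma ae_den (A : SL) : ∀ᵐ z : ℂ, den A z ≠ 0 := by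
  rw [ae_iff]
  have : {z : ℂ | ¬ den A z ≠ 0} = {z | den A z = 0} := by
    ext z
    simp
  rw [this]
  exact (den_finite A).measure_zero _

private lemma norm_mob_ge (A : SL) (hA : Pool.Agent.Helper20.QD.IsSU A) (z : ℂ)
    (hz : 1 ≤ ‖z‖) (hd : den A z ≠ 0) : 1 ≤ ‖mob A z‖ := by
  obtain ⟨h1, h2⟩ := hA
  have hdet := det_eq_one A
  have e1 : mob A z = (A 0 0 * z + A 0 1) / den A z := rfl
  have e2 : den A z = conj (A 0 1) * z + conj (A 0 0) := by
    have : den A z = A 1 0 * z + A 1 1 := rfl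
    rw [this]
    exact congrArg₂ (fun x y => x * z + y) h2 h1
  have hdet' : A 0 0 * conj (A 0 0) - A 0 1 * conj (A 0 1) = 1 :=
    (congrArg₂ (fun x y => A 0 0 * x - A 0 1 * y) h1.symm h2.symm).trans hdet
  have hdp : 0 < ‖den A z‖ := norm_pos_iff.2 hd
  have key : ‖A 0 0 * z + A 0 1‖ ^ 2 - ‖den A z‖ ^ 2 = ‖z‖ ^ 2 - 1 := by
    have hc : ((‖A 0 0 * z + A 0 1‖ ^ 2 - ‖den A z‖ ^ 2 : ℝ) : ℂ) = ((‖z‖ ^ 2 - 1 : ℝ) : ℂ) := by
      push_cast
      rw [← Complex.mul_conj', ← Complex.mul_conj', ← Complex.mul_conj', e2]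
      simp only [map_add, map_mul, Complex.conj_conj]
      linear_combination (z * conj z - 1) * hdet'
    exact_mod_cast hc
  have h3 : ‖den A z‖ ^ 2 ≤ ‖A 0 0 * z + A 0 1‖ ^ 2 := by nlinarith
  have h4 : ‖den A z‖ ≤ ‖A 0 0 * z + A 0 1‖ := by
    exact le_of_sq_le_sq h3 (norm_nonneg _)
  rw [e1, norm_div, le_div_iff₀ hdp, one_mul]
  exact h4

theorem hNBC (hSUB : Pool.Agent.Helper20.QD.StSUB) (hFPC : StFPC)
    (hEX : Pool.Agent.Helper68.QC.StEX) (hUNI : Pool.Agent.Helper68.QC.StUNI)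
    (hPRE : Pool.Agent.Helper68.QC.StPRE) (hPOS : Pool.Agent.Helper68.QC.StPOS)
    (hEQV : Pool.Agent.Helper68.QC.StEQV) (hITW : Pool.Agent.Helper68.QC.StITW) : StNBC := by
  intro Γ _ σ ρ μ k N hSt hN
  obtain ⟨hw0, hw1, hws⟩ := hEX k hSt.k1 μ hSt.bel
  set w := nq μ with hw
  set A : SL := N⁻¹ with hAdef
  have hA : Pool.Agent.Helper20.QD.IsSU A := (hSUB.1 N hN).1
  have hUo := isOpen_den A
  set μ' : ℂ → ℂ := fun z => μ (mob A z) * (den A z ^ 2 / conj (den A z) ^ 2) with hμ'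
  -- the coefficient
  have hdenm : Measurable (den A) := by
    unfold den
    exact (measurable_const.mul measurable_id).add measurable_const
  have hmobm : Measurable (mob A) := by
    unfold mob
    exact ((measurable_const.mul measurable_id).add measurable_const).div hdenm
  have hBel : Bel k μ' := by
    refine ⟨?_, fun z => ?_⟩
    · refine (hSt.bel.meas.comp hmobm).mul ((hdenm.pow_const 2).div ?_)
      exact ((Complex.continuous_conj.measurable).comp hdenm).pow_const 2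
    · rw [hμ']
      simp only [norm_mul, norm_div, norm_pow, RCLike.norm_conj]
      have h1 := hSt.bel.le (mob A z)
      rcases eq_or_ne ‖den A z‖ 0 with h0 | h0
      · rw [h0]
        simpa using hSt.k0
      · rw [div_self (pow_ne_zero 2 h0), mul_one]
        exact h1
  -- the solution
  have hsol1 : Sol μ' {z | den A z ≠ 0} (fun z => w (mob A z)) := by
    have h := hPRE μ univ {z | den A z ≠ 0} w (mob A) isOpen_univ hUo
      (fun z hz => (hasDerivAt_mob A hz).differentiableAt.differentiableWithinAt) (mob_injOn A)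
      (mapsTo_univ _ _) (fun z hz => by
        rw [(hasDerivAt_mob A hz).deriv]
        exact one_div_ne_zero (pow_ne_zero 2 hz)) hws
    refine sol_congr h ?_
    filter_upwards [ae_restrict_mem hUo.measurableSet] with z hz
    have hz' : den A z ≠ 0 := hz
    rw [(hasDerivAt_mob A hz').deriv, hμ']
    have hc : conj (den A z) ≠ 0 := by simpa using hz'
    simp only
    congr 1
    rw [map_div₀, map_one, map_pow]
    field_simp
  obtain ⟨f, M0, hf⟩ := exists_left w A
  obtain ⟨g, M1, hg0, hg1, hg⟩ := exists_norm f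
  have hgM : ∀ z, den A z ≠ 0 → g z = mob (M1 * M0) (w (mob A z)) ∧
      den (M1 * M0) (w (mob A z)) ≠ 0 := by
    intro z hz
    obtain ⟨h1, h2⟩ := hf z hz
    obtain ⟨h3, h4⟩ := hg z
    obtain ⟨h5, h6⟩ := mul_rule M1 M0 _ h2
    rw [h5, h6, ← h1]
    exact ⟨h3, mul_ne_zero h4 h2⟩
  set M : SL := M1 * M0 with hM
  have hsol2 : Sol μ' {z | den A z ≠ 0} g := by
    have h := hPOS μ' {z | den A z ≠ 0} {y | den M y ≠ 0} (fun z => w (mob A z)) (mob M) hUo
      (isOpen_den M)
      (fun y hy => (hasDerivAt_mob M hy).differentiableAt.differentiableWithinAt)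
      (fun z hz => (hgM z hz).2) hsol1
    exact sol_congr_fun h fun z hz => (hgM z hz).1.symm
  have hgn : g = nq μ' := by
    refine hUNI k hSt.k1 μ' hBel g hg0 hg1 {z | den A z = 0} (den_finite A) ?_
    have : {z | den A z = 0}ᶜ = {z | den A z ≠ 0} := by
      ext z
      simp
    rw [this]
    exact hsol2
  -- rules for good points
  have hgood : ∀ γ, ∀ z, den A z ≠ 0 → den (N * σ γ * N⁻¹) z ≠ 0 →
      den (A * (N * σ γ * N⁻¹)) z ≠ 0 →
      den A (mob (N * σ γ * N⁻¹) z) ≠ 0 ∧ den (σ γ) (mob A z) ≠ 0 ∧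
      mob A (mob (N * σ γ * N⁻¹) z) = mob (σ γ) (mob A z) ∧
      den A (mob (N * σ γ * N⁻¹) z) * den (N * σ γ * N⁻¹) z =
        den (σ γ) (mob A z) * den A z := by
    intro γ z h1 h2 h3
    obtain ⟨a1, a2⟩ := mul_rule A (N * σ γ * N⁻¹) z h2
    obtain ⟨b1, b2⟩ := mul_rule (σ γ) A z h1
    have hAC : A * (N * σ γ * N⁻¹) = σ γ * A := by
      rw [hAdef]
      group
    have h4 : den A (mob (N * σ γ * N⁻¹) z) ≠ 0 := by
      intro h
      rw [a2, h, zero_mul] at h3
      exact h3 rfl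
    have h5 : den (σ γ) (mob A z) ≠ 0 := by
      intro h
      rw [hAC, b2, h, zero_mul] at h3
      exact h3 rfl
    refine ⟨h4, h5, ?_, ?_⟩
    · rw [← a1, ← b1, hAC]
    · rw [← a2, ← b2, hAC]
  have hinv : ∀ γ, InvB (N * σ γ * N⁻¹) μ' := by
    intro γ
    unfold InvB
    filter_upwards [ae_mob A (hSt.inv γ), ae_den A, ae_den (N * σ γ * N⁻¹),
      ae_den (A * (N * σ γ * N⁻¹))] with z h0 h1 h2 h3
    obtain ⟨g1, g2, g3, g4⟩ := hgood γ z h1 h2 h3
    have h4 : μ (mob (σ γ) (mob A z)) * den (σ γ) (mob A z) ^ 2 =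
      μ (mob A z) * conj (den (σ γ) (mob A z)) ^ 2 := h0 h1
    rw [hμ']
    simp only
    rw [g3]
    have c1 : conj (den A z) ≠ 0 := by simpa using h1
    have c2 : conj (den A (mob (N * σ γ * N⁻¹) z)) ≠ 0 := by simpa using g1
    have c3 : conj (den (σ γ) (mob A z)) ≠ 0 := by simpa using g2
    have g4' := congrArg conj g4
    rw [map_mul, map_mul] at g4'
    set X := den A (mob (N * σ γ * N⁻¹) z)
    set Y := den (N * σ γ * N⁻¹) z
    set P := den (σ γ) (mob A z)
    set Q := den A z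
    set m := μ (mob (σ γ) (mob A z))
    set m' := μ (mob A z)
    field_simp
    have e1 : m * X ^ 2 * Y ^ 2 * conj Q ^ 2 = m' * Q ^ 2 * (conj X ^ 2 * conj Y ^ 2) := by
      have e2 : X ^ 2 * Y ^ 2 = P ^ 2 * Q ^ 2 := by
        rw [← mul_pow, ← mul_pow, g4]
      have e3 : conj X ^ 2 * conj Y ^ 2 = conj P ^ 2 * conj Q ^ 2 := by
        rw [← mul_pow, ← mul_pow, g4']
      rw [mul_assoc m, e2, e3]
      linear_combination (Q ^ 2 * conj Q ^ 2) * h4
    linear_combination e1
  refine ⟨μ', M, ⟨(hFPC Γ σ hSt.fs).2.2 N hN, hSt.k0, hSt.k1, hBel, fun z hz => ?_, hinv,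
    fun γ => ?_⟩⟩
  · rw [hμ']
    simp only
    rcases eq_or_ne (den A z) 0 with h0 | h0
    · rw [h0]
      simp
    · rw [hSt.out0 _ (norm_mob_ge A hA z hz h0), zero_mul]
  · -- intertwining
    have hC : Pool.Agent.Helper20.QD.cj N σ γ = N * σ γ * N⁻¹ := rfl
    have hC' : Pool.Agent.Helper20.QD.cj M ρ γ = M * ρ γ * M⁻¹ := rfl
    rw [hC, hC']
    obtain ⟨B', hB'⟩ := hEQV k hSt.k1 μ' hBel (N * σ γ * N⁻¹) (hinv γ)
    set bad : Set ℂ := {z | den A z = 0} ∪ ({z | den (N * σ γ * N⁻¹) z = 0} ∪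
      {z | den (A * (N * σ γ * N⁻¹)) z = 0}) with hbad
    have hfin : bad.Finite :=
      (den_finite _).union ((den_finite _).union (den_finite _))
    have hinf : (g '' badᶜ).Infinite :=
      (hfin.infinite_compl).image g.injective.injOn
    have hpm : M * ρ γ * M⁻¹ = B' ∨ M * ρ γ * M⁻¹ = -B' := by
      refine eq_or_neg B' (M * ρ γ * M⁻¹) _ hinf ?_
      rintro _ ⟨z, hz, rfl⟩
      have h1 : den A z ≠ 0 := fun h => hz (Or.inl h)
      have h2 : den (N * σ γ * N⁻¹) z ≠ 0 := fun h => hz (Or.inr (Or.inl h))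
      have h3 : den (A * (N * σ γ * N⁻¹)) z ≠ 0 := fun h => hz (Or.inr (Or.inr h))
      obtain ⟨g1, g2, g3, -⟩ := hgood γ z h1 h2 h3
      obtain ⟨w1, w2⟩ := hgM z h1
      obtain ⟨v1, v2⟩ := hgM _ g1
      have hI := hSt.int γ
      have i1 : w (mob (σ γ) (mob A z)) = mob (ρ γ) (w (mob A z)) := hI.2.1 _ g2
      have i2 : den (ρ γ) (w (mob A z)) ≠ 0 := fun h => g2 ((hI.1 _).2 h)
      rw [g3, i1] at v1 v2
      obtain ⟨p1, p2⟩ := mul_rule (M * ρ γ * M⁻¹) M _ w2
      obtain ⟨q1, q2⟩ := mul_rule M (ρ γ) _ i2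
      have hMM : M * ρ γ * M⁻¹ * M = M * ρ γ := by group
      rw [hMM, ← w1] at p1 p2
      have j1 : g (mob (N * σ γ * N⁻¹) z) = mob B' (g z) := by
        rw [hgn]
        exact hB'.2.1 z h2
      have j2 : den B' (g z) ≠ 0 := by
        rw [hgn]
        exact fun h => h2 ((hB'.1 z).2 h)
      refine ⟨j2, ?_, ?_⟩
      · intro h
        rw [p2, h, zero_mul] at q2
        exact mul_ne_zero v2 i2 q2.symm
      · rw [← j1, v1, ← q1, p1]
    rcases hpm with h | h
    · rw [h]
      exact hB'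
    · rw [h]
      exact hITW.2.2 _ _ _ hB'

end Pool.Agent.Helper34.QL
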